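import Mathlib
import Pool.Agent.Q42.UP.Main

/-!
# MP_1fc009_ag, Q1 and Q2: minimal log discrepancies are not linear on any rational polytope

We disprove Q1 (and hence Q2) in every dimension `d ≥ 3`, already for `m = 1`, that is, for
boundaries `v B` with one Weil divisor `B`, for every irrational `v` between `1 / 2` and `1`.

The pairs are `X = ℂ^3 / μ_r`, with weights `(r - 1 - 2 k, 1, k)`, `r = k l - 1`, times an affine
space, with `B` the image of the hyperplane `x_1 = 0`: for `1 / 2 ≤ t ≤ 1` we have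
`mld (X ∋ 0, t B) = d - 2 - t + min (t + (2 t - 1) k, t l + 2 t - 1) / r`, which is not linear near
the rational number `t` with `t / (2 t - 1) = (k - 1) / (l - 1)`. These numbers are dense.

The definitions are in `Pool.Agent.Q42.UP.Defs`, `Pool.Agent.W497.Mld.Defs`,
`Pool.Agent.H436R3.KT.Defs` and `Pool.Agent.H436R3.Fol.Defs`.
-/

set_option autoImplicit false

namespace Pool.Agent.Results.MP_1fc009_ag.NoUniformPolytope

open Pool.Agent.Q42.UP Pool.Agent.H436R3.KT Pool.Agent.H436R3.Fol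

/-- There are no uniform rational polytopes for minimal log discrepancies in dimension `d ≥ 3`: for
`m = 1`, every irrational coefficient `v` between `1 / 2` and `1`, and every `ε ≤ 1 - v`, no rational
polytope containing `v` has the properties of Q1. -/
theorem result (d : ℕ) (hd : 3 ≤ d) (v : ℝ) (hv : Irrational v) (hv1 : 1 / 2 < v) (hv2 : v < 1)
    (ε : ℝ) (hε : ε ≤ 1 - v) : ¬ UniformPolytope ε d 1 (fun _ => v) := by
  rintro ⟨N, V, a, η, ha, -, hsum, hav, -, H⟩
  obtain ⟨s, rfl⟩ : ∃ s, d = s + 3 := ⟨d - 3, by omega⟩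
  -- the polytope contains an interval around `v`
  have hne : ∀ j, (V j 0 : ℝ) ≠ v := fun j => hv.ne_rat (V j 0) |>.symm
  have h0 : ∑ j, a j * ((V j 0 : ℝ) - v) = 0 := by
    simp only [mul_sub, Finset.sum_sub_distrib]
    rw [hav 0, ← Finset.sum_mul, hsum, one_mul, sub_self]
  have hN : (Finset.univ : Finset (Fin N)).Nonempty := by
    by_contra h
    rw [Finset.not_nonempty_iff_eq_empty] at h
    rw [h, Finset.sum_empty] at hsum
    exact zero_ne_one hsum
  obtain ⟨j1, hj1⟩ : ∃ j, (V j 0 : ℝ) < v := by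
    by_contra h
    push Not at h
    have : 0 < ∑ j, a j * ((V j 0 : ℝ) - v) :=
      Finset.sum_pos (fun j _ => mul_pos (ha j) (sub_pos.2 (lt_of_le_of_ne (h j) (hne j).symm))) hN
    exact this.ne' h0
  obtain ⟨j2, hj2⟩ : ∃ j, v < (V j 0 : ℝ) := by
    by_contra h
    push Not at h
    have : ∑ j, a j * ((V j 0 : ℝ) - v) < 0 :=
      Finset.sum_neg (fun j _ => mul_neg_of_pos_of_neg (ha j)
        (sub_neg.2 (lt_of_le_of_ne (h j) (hne j)))) hN
    exact this.ne h0
  have hmem : ∀ c : ℝ, (V j1 0 : ℝ) ≤ c → c ≤ (V j2 0 : ℝ) →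
      (fun _ : Fin 1 => c) ∈ convexHull ℝ (Set.range fun j i => (V j i : ℝ)) := by
    intro c hc1 hc2
    have hlt : (V j1 0 : ℝ) < V j2 0 := hj1.trans hj2
    have h1 := (convex_convexHull ℝ (Set.range fun j i => (V j i : ℝ))).segment_subset
      (subset_convexHull ℝ _ ⟨j1, rfl⟩) (subset_convexHull ℝ _ ⟨j2, rfl⟩)
    apply h1
    have hd0 : (0 : ℝ) < V j2 0 - V j1 0 := sub_pos.2 hlt
    refine ⟨((V j2 0 : ℝ) - c) / (V j2 0 - V j1 0), (c - V j1 0) / (V j2 0 - V j1 0),
      div_nonneg (sub_nonneg.2 hc2) hd0.le, div_nonneg (sub_nonneg.2 hc1) hd0.le, ?_, ?_⟩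
    · rw [← add_div, div_eq_one_iff_eq hd0.ne']
      ring
    · funext i
      rw [Fin.eq_zero i]
      simp only [Pi.add_apply, Pi.smul_apply, smul_eq_mul]
      field_simp
      ring
  -- a rational number in this interval
  obtain ⟨q, hq1, hq2⟩ := exists_rat_btwn (max_lt hj1 hv1)
  have hqV : (V j1 0 : ℝ) < q := (le_max_left _ _).trans_lt hq1
  have hqh : (1 / 2 : ℝ) < q := (le_max_right _ _).trans_lt hq1
  set x : ℤ := q.num with hx
  set y : ℤ := (q.den : ℤ) with hy
  have hy0 : (0 : ℤ) < y := by rw [hy]; exact_mod_cast q.pos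
  have hy0' : (0 : ℝ) < y := by exact_mod_cast hy0
  have hqy : (q : ℝ) * y = x := by
    have h1 := Rat.mul_den_eq_num q
    have h2 : ((q * (q.den : ℚ) : ℚ) : ℝ) = ((q.num : ℚ) : ℝ) := by rw [h1]
    push_cast at h2
    rw [hx, hy]
    push_cast
    exact h2
  have hxy : (0 : ℤ) < 2 * x - y := by
    have : (0 : ℝ) < 2 * (x : ℝ) - y := by rw [← hqy]; nlinarith
    exact_mod_cast this
  have hx0 : (0 : ℤ) < x := by omega
  obtain ⟨X, P, B, hX, hXd, hB⟩ := example_germ (k := 1 + 3 * x) (l := 1 + 3 * (2 * x - y))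
    (by omega) (by omega) s
  set k : ℤ := 1 + 3 * x with hk
  set l : ℤ := 1 + 3 * (2 * x - y) with hl
  have hk' : (k : ℝ) = 1 + 3 * x := by rw [hk]; push_cast; ring
  have hl' : (l : ℝ) = 1 + 3 * (2 * x - y) := by rw [hl]; push_cast; ring
  have hr : (0 : ℝ) < (k : ℝ) * l - 1 := by
    have : (0 : ℤ) < k * l - 1 := by
      have h1 : 2 ≤ k := by omega
      have h2 : 4 ≤ l := by omega
      nlinarith
    exact_mod_cast this
  have hx0' : (0 : ℝ) < x := by exact_mod_cast hx0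
  have hxy' : (0 : ℝ) < 2 * (x : ℝ) - y := by exact_mod_cast hxy
  -- the pair is `ε`-lc
  have heps : EpsLc B (fun _ => v) P ε := by
    obtain ⟨h1, h2⟩ := hB (fun _ => v) hv1.le hv2.le
    refine ⟨h1, fun e w b hw hb => ?_⟩
    have h3 := (h2 e).2 ⟨w, hw, hb⟩
    have h4 : 0 ≤ min (v + (2 * v - 1) * k) (v * l + (2 * v - 1)) / ((k : ℝ) * l - 1) := by
      apply div_nonneg _ hr.le
      apply le_min
      · rw [hk']
        nlinarith
      · rw [hl']
        nlinarith
    have h5 : (0 : ℝ) ≤ s := Nat.cast_nonneg s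
    have h6 : 1 - v ≤ mu k l s v := by
      rw [mu]
      linarith
    exact hε.trans (h6.trans h3)
  obtain ⟨⟨α, β, hlin⟩, -⟩ := H _ X P B hX hXd heps
  -- the values of the linear function
  have hval : ∀ c : ℝ, (V j1 0 : ℝ) ≤ c → c ≤ (V j2 0 : ℝ) → 1 / 2 ≤ c → c ≤ 1 →
      α + β 0 * c = mu k l s c := by
    intro c h1 h2 h3 h4
    obtain ⟨e, he⟩ := hlin _ (hmem c h1 h2)
    rw [Fin.sum_univ_one] at he
    exact he.unique (((hB (fun _ => c) h3 h4).2 e).isGLB)
  -- three points near `q`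
  obtain ⟨δ, hδ0, hδ1, hδ2⟩ : ∃ δ : ℝ, 0 < δ ∧ max (V j1 0 : ℝ) (1 / 2) ≤ q - δ ∧ q + δ ≤ v := by
    refine ⟨min (q - max (V j1 0 : ℝ) (1 / 2)) (v - q), lt_min (sub_pos.2 hq1) (sub_pos.2 hq2),
      ?_, ?_⟩
    · have := min_le_left (q - max (V j1 0 : ℝ) (1 / 2)) (v - q)
      linarith
    · have := min_le_right (q - max (V j1 0 : ℝ) (1 / 2)) (v - q)
      linarith
  have hδ3 : (V j1 0 : ℝ) ≤ q - δ := (le_max_left _ _).trans hδ1
  have hδ4 : (1 / 2 : ℝ) ≤ q - δ := (le_max_right _ _).trans hδ1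
  have e1 := hval (q - δ) hδ3 (by linarith) hδ4 (by linarith)
  have e2 := hval q (by linarith) (by linarith) (by linarith) (by linarith)
  have e3 := hval (q + δ) (by linarith) (by linarith) (by linarith) (by linarith)
  rw [mu] at e1 e2 e3
  have m1 := min_le_left ((q - δ) + (2 * (q - δ) - 1) * k) ((q - δ) * l + (2 * (q - δ) - 1))
  have m3 := min_le_right ((q + δ) + (2 * (q + δ) - 1) * k) ((q + δ) * l + (2 * (q + δ) - 1))
  have hqq : (q : ℝ) + (2 * q - 1) * k = q * l + (2 * q - 1) := by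
    rw [hk', hl']
    linear_combination 3 * hqy
  have m2 : min ((q : ℝ) + (2 * q - 1) * k) (q * l + (2 * q - 1)) = q * l + (2 * q - 1) := by
    rw [hqq, min_self]
  rw [m2] at e2
  have d1 := div_le_div_of_nonneg_right m1 hr.le
  have d3 := div_le_div_of_nonneg_right m3 hr.le
  have h7 : 2 * ((q * l + (2 * q - 1)) / ((k : ℝ) * l - 1)) ≤
      ((q - δ) + (2 * (q - δ) - 1) * k) / ((k : ℝ) * l - 1) +
        ((q + δ) * l + (2 * (q + δ) - 1)) / ((k : ℝ) * l - 1) := by
    linarith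
  rw [← add_div, ← mul_div_assoc, div_le_div_iff_of_pos_right hr] at h7
  have h8 : ((q - δ) + (2 * (q - δ) - 1) * k) + ((q + δ) * l + (2 * (q + δ) - 1)) =
      2 * (q * l + (2 * q - 1)) - 3 * y * δ := by
    rw [hk', hl']
    linear_combination (3 : ℝ) * hqy
  rw [h8] at h7
  have h9 : 0 < 3 * (y : ℝ) * δ := by positivity
  linarith

end Pool.Agent.Results.MP_1fc009_ag.NoUniformPolytope
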